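import Mathlib
import Pool.Agent.Q176.MA.Bas

/-!
# The complex Monge-Ampère flow has no solution starting from `c log |z|` on the unit ball
-/

set_option autoImplicit false

open Set Filter Topology Metric MeasureTheory
open scoped ENNReal Matrix ComplexOrder ContDiff

namespace Pool.Agent.Results.MP_8f0dee_an.NoSolutionLogPole

/-- The space `ℂⁿ`. -/
abbrev Cn (n : ℕ) := EuclideanSpace ℂ (Fin n)

/-- The `i`-th unit vector. -/
noncomputable def e {n : ℕ} (i : Fin n) : Cn n := EuclideanSpace.single i (1 : ℂ)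

/-- The second derivative of `f` at `z` in the directions `v` and `w`. -/
noncomputable def D2 {n : ℕ} (f : Cn n → ℝ) (z v w : Cn n) : ℝ := fderiv ℝ (fderiv ℝ f) z v w

/-- The complex Hessian matrix `(∂²f/∂z_i∂z̄_j)`. -/
noncomputable def complexHessian {n : ℕ} (f : Cn n → ℝ) (z : Cn n) : Matrix (Fin n) (Fin n) ℂ :=
  Matrix.of fun i j => (1 / 4 : ℂ) *
    (((D2 f z (e i) (e j) + D2 f z (Complex.I • e i) (Complex.I • e j) : ℝ) : ℂ) +
      Complex.I * ((D2 f z (e i) (Complex.I • e j) - D2 f z (Complex.I • e i) (e j) : ℝ) : ℂ))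

/-- `f` is plurisubharmonic on `U`: it does not take the value `+∞`, it is upper semicontinuous,
and on every closed complex disc contained in `U` it satisfies the sub-mean value inequality,
stated with continuous majorants on the boundary circle. -/
def Psh {n : ℕ} (U : Set (Cn n)) (f : Cn n → EReal) : Prop :=
  (∀ z ∈ U, f z ≠ ⊤) ∧ UpperSemicontinuousOn f U ∧
    ∀ z v : Cn n, (∀ l : ℂ, ‖l‖ ≤ 1 → z + l • v ∈ U) → ∀ g : ℂ → ℝ, Continuous g →
      (∀ l : ℂ, ‖l‖ = 1 → f (z + l • v) ≤ ((g l : ℝ) : EReal)) →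
        f z ≤ ((Real.circleAverage g 0 1 : ℝ) : EReal)

/-- Admissible data for the flow on `Ω × [0, T)`. -/
structure IsData {n : ℕ} (Ω : Set (Cn n)) (T : ℝ) (u₀ : Cn n → EReal) (φ : Cn n → ℝ → ℝ) :
    Prop where
  psh : ∃ U, IsOpen U ∧ closure Ω ⊆ U ∧ Psh U u₀
  smooth : ContDiffOn ℝ ∞ (fun p : Cn n × ℝ => φ p.1 p.2) (closure Ω ×ˢ Ico 0 T)
  compatible : ∀ z ∈ frontier Ω, ∀ t ∈ Ico (0 : ℝ) T, ((φ z t : ℝ) : EReal) = u₀ z

/-- `u` is a solution of the flow with initial datum `u₀` and boundary data `φ`. -/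
structure IsSolution {n : ℕ} (Ω : Set (Cn n)) (T : ℝ) (u₀ : Cn n → EReal) (φ : Cn n → ℝ → ℝ)
    (u : Cn n → ℝ → ℝ) : Prop where
  smooth : ContDiffOn ℝ ∞ (fun p : Cn n × ℝ => u p.1 p.2) (closure Ω ×ˢ Ioo 0 T)
  strictlyPsh : ∀ t ∈ Ioo (0 : ℝ) T, ∀ z ∈ Ω, (complexHessian (fun w => u w t) z).PosDef
  flow : ∀ t ∈ Ioo (0 : ℝ) T, ∀ z ∈ Ω,
    deriv (fun s => u z s) t = Real.log (complexHessian (fun w => u w t) z).det.re
  boundary : ∀ z ∈ frontier Ω, ∀ t ∈ Ioo (0 : ℝ) T, u z t = φ z t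
  initial : ∀ z ∈ closure Ω, Tendsto (fun t => ((u z t : ℝ) : EReal)) (𝓝[>] 0) (𝓝 (u₀ z))

/-- The function `c log |z|`, with the value `-∞` at the origin. -/
noncomputable def logPole {n : ℕ} (c : ℝ) (z : Cn n) : EReal :=
  if z = 0 then ⊥ else ((c * Real.log ‖z‖ : ℝ) : EReal)

/-! ### The Levi form and the complex Hessian -/

open Pool.Agent.Q176.MA

variable {n : ℕ}

lemma expand (x : Fin n → ℂ) : (WithLp.toLp 2 (star x) : Cn n) =
    ∑ i, ((x i).re • e i + (-(x i).im) • (Complex.I • e i)) := by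
  ext j
  simp only [e, Pi.star_apply, WithLp.ofLp_sum, Finset.sum_apply, PiLp.add_apply,
    PiLp.smul_apply, EuclideanSpace.single, PiLp.single_apply]
  rw [Finset.sum_eq_single j]
  · apply Complex.ext <;> simp
  · intro i _ hi
    simp [Ne.symm hi]
  · simp

lemma expandI (x : Fin n → ℂ) : Complex.I • (WithLp.toLp 2 (star x) : Cn n) =
    ∑ i, ((x i).im • e i + (x i).re • (Complex.I • e i)) := by
  ext j
  simp only [e, Pi.star_apply, WithLp.ofLp_sum, Finset.sum_apply, PiLp.add_apply,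
    PiLp.smul_apply, EuclideanSpace.single, PiLp.single_apply]
  rw [Finset.sum_eq_single j]
  · apply Complex.ext <;> simp
  · intro i _ hi
    simp [Ne.symm hi]
  · simp

lemma bilin (D : Cn n →L[ℝ] Cn n →L[ℝ] ℝ) (p q : Fin n → ℝ) (a b : Fin n → Cn n) :
    D (∑ i, (p i • a i + q i • b i)) (∑ i, (p i • a i + q i • b i)) =
      ∑ i, ∑ j, (p i * p j * D (a i) (a j) + p i * q j * D (a i) (b j) +
        q i * p j * D (b i) (a j) + q i * q j * D (b i) (b j)) := by
  rw [map_sum D, sum_apply]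
  apply Finset.sum_congr rfl
  intro i _
  rw [map_sum]
  apply Finset.sum_congr rfl
  intro j _
  simp only [map_add, map_smul, add_apply, smul_apply, smul_eq_mul]
  ring

lemma quad (f : Cn n → ℝ) (z : Cn n) (x : Fin n → ℂ) :
    (star x ⬝ᵥ (complexHessian f z *ᵥ x)).re = 1 / 4 * lev f z (WithLp.toLp 2 (star x)) := by
  unfold lev
  rw [expandI, expand]
  rw [bilin _ (fun i => (x i).re) (fun i => -(x i).im) (fun i => e i) (fun i => Complex.I • e i),
    bilin _ (fun i => (x i).im) (fun i => (x i).re) (fun i => e i) (fun i => Complex.I • e i),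
    ← Finset.sum_add_distrib, Finset.mul_sum]
  simp only [dotProduct, Matrix.mulVec, Finset.mul_sum, Complex.re_sum]
  apply Finset.sum_congr rfl
  intro i _
  rw [← Finset.sum_add_distrib, Finset.mul_sum]
  apply Finset.sum_congr rfl
  intro j _
  simp only [complexHessian, Matrix.of_apply, D2, Pi.star_apply]
  simp
  ring

/-- The complex Hessian of `a log (|z|² + δ)`, with `S = |z|² + δ`. -/
noncomputable def cmp (a S : ℝ) (z : Cn n) : Matrix (Fin n) (Fin n) ℂ :=
  ((a / S : ℝ) : ℂ) • (1 - Matrix.vecMulVec (fun i => ((S⁻¹ : ℝ) : ℂ) * star (z i)) fun j => z j)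

lemma sum_norm (z : Cn n) : ∑ i, z i * star (z i) = ((‖z‖ ^ 2 : ℝ) : ℂ) := by
  rw [EuclideanSpace.norm_sq_eq]
  push_cast
  apply Finset.sum_congr rfl
  intro i _
  rw [Complex.star_def, Complex.mul_conj, Complex.normSq_eq_norm_sq]
  push_cast
  rfl

lemma cmp_det (a δ : ℝ) (hδ : 0 < δ) (z : Cn n) :
    (cmp a (‖z‖ ^ 2 + δ) z).det = ((a ^ n * δ / (‖z‖ ^ 2 + δ) ^ (n + 1) : ℝ) : ℂ) := by
  have hS : 0 < ‖z‖ ^ 2 + δ := by positivity
  set S := ‖z‖ ^ 2 + δ with hSdef
  unfold cmp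
  rw [Matrix.det_smul, Fintype.card_fin]
  have h1 : (1 : Matrix (Fin n) (Fin n) ℂ) -
      Matrix.vecMulVec (fun i => ((S⁻¹ : ℝ) : ℂ) * star (z i)) (fun j => z j) =
      1 + Matrix.replicateCol Unit (fun i => -(((S⁻¹ : ℝ) : ℂ) * star (z i))) *
        Matrix.replicateRow Unit (fun j => z j) := by
    ext i j
    simp [Matrix.vecMulVec_apply, Matrix.mul_apply, sub_eq_add_neg]
  rw [h1, Matrix.det_one_add_replicateCol_mul_replicateRow]
  have h2 : (fun j => z j) ⬝ᵥ (fun i => -(((S⁻¹ : ℝ) : ℂ) * star (z i))) =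
      ((-(S⁻¹ * ‖z‖ ^ 2) : ℝ) : ℂ) := by
    unfold dotProduct
    have : ∀ i, z i * -(((S⁻¹ : ℝ) : ℂ) * star (z i)) = -((S⁻¹ : ℝ) : ℂ) * (z i * star (z i)) := by
      intro i; ring
    simp_rw [this]
    rw [← Finset.mul_sum, sum_norm]
    push_cast
    ring
  rw [h2, ← Complex.ofReal_one, ← Complex.ofReal_add, ← Complex.ofReal_pow, ← Complex.ofReal_mul]
  congr 1
  have h3 : 1 + -(S⁻¹ * ‖z‖ ^ 2) = δ / S := by
    field_simp
    rw [hSdef]
    ring
  rw [h3, div_pow, pow_succ]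
  field_simp

lemma cmp_herm (a S : ℝ) (z : Cn n) : (cmp a S z).IsHermitian := by
  ext i j
  unfold cmp
  by_cases h : i = j
  · subst h
    simp [Matrix.vecMulVec_apply]
    left
    ring
  · simp [Matrix.vecMulVec_apply, h, Ne.symm h]
    left
    ring

open scoped InnerProductSpace in
lemma cmp_quad (a S : ℝ) (z : Cn n) (x : Fin n → ℂ) :
    (star x ⬝ᵥ (cmp a S z *ᵥ x)).re =
      a / S * (‖(WithLp.toLp 2 (star x) : Cn n)‖ ^ 2 -
        S⁻¹ * ‖⟪z, (WithLp.toLp 2 (star x) : Cn n)⟫_ℂ‖ ^ 2) := by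
  have h1 : star x ⬝ᵥ x = ((‖(WithLp.toLp 2 (star x) : Cn n)‖ ^ 2 : ℝ) : ℂ) := by
    rw [← sum_norm]
    simp [dotProduct]
  have h2 : star x ⬝ᵥ (fun i => ((S⁻¹ : ℝ) : ℂ) * star (z i)) =
      ((S⁻¹ : ℝ) : ℂ) * ⟪z, (WithLp.toLp 2 (star x) : Cn n)⟫_ℂ := by
    simp only [dotProduct, PiLp.inner_apply, Finset.mul_sum]
    apply Finset.sum_congr rfl
    intro i _
    simp
    ring
  have h3 : (fun j => z j) ⬝ᵥ x = star ⟪z, (WithLp.toLp 2 (star x) : Cn n)⟫_ℂ := by
    simp only [dotProduct, PiLp.inner_apply, star_sum]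
    apply Finset.sum_congr rfl
    intro i _
    simp
    ring
  unfold cmp
  rw [Matrix.smul_mulVec, dotProduct_smul, Matrix.sub_mulVec, Matrix.one_mulVec, dotProduct_sub,
    Matrix.vecMulVec_mulVec, h1, dotProduct_smul, h2, h3, op_smul_eq_mul, mul_assoc,
    Complex.star_def, Complex.mul_conj, Complex.normSq_eq_norm_sq, smul_eq_mul]
  rw [← Complex.ofReal_mul, ← Complex.ofReal_sub, ← Complex.ofReal_mul, Complex.ofReal_re]

/-- The derivatives of `log (|z|² + δ)` along a line. -/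
lemma log_line (a : ℝ) {δ : ℝ} (hδ : 0 < δ) (z v : Cn n) :
    (∀ s : ℝ, HasDerivAt (fun s : ℝ => a * Real.log (‖z + s • v‖ ^ 2 + δ))
      (a * ((2 * (inner ℂ z v).re + 2 * ‖v‖ ^ 2 * s) / (‖z + s • v‖ ^ 2 + δ))) s) ∧
    HasDerivAt (fun s : ℝ => a * ((2 * (inner ℂ z v).re + 2 * ‖v‖ ^ 2 * s) /
      (‖z + s • v‖ ^ 2 + δ)))
      (a * ((2 * ‖v‖ ^ 2) / (‖z‖ ^ 2 + δ) -
        (2 * (inner ℂ z v).re) ^ 2 / (‖z‖ ^ 2 + δ) ^ 2)) 0 := by
  have hq : ∀ s : ℝ, ‖z + s • v‖ ^ 2 = ‖z‖ ^ 2 + 2 * (inner ℂ z v).re * s + ‖v‖ ^ 2 * s ^ 2 := by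
    intro s
    rw [← Complex.coe_smul, norm_add_sq (𝕜 := ℂ), inner_smul_right, norm_smul]
    simp [mul_pow]
    ring
  have hqd : ∀ s : ℝ, HasDerivAt (fun s : ℝ => ‖z + s • v‖ ^ 2 + δ)
      (2 * (inner ℂ z v).re + 2 * ‖v‖ ^ 2 * s) s := by
    intro s
    simp_rw [hq]
    have h1 := ((hasDerivAt_id s).const_mul (2 * (inner ℂ z v).re)).const_add (‖z‖ ^ 2)
    have h2 := ((hasDerivAt_pow 2 s).const_mul (‖v‖ ^ 2))
    have h3 := (h1.add h2).add_const δ
    refine h3.congr_deriv ?_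
    push_cast
    ring
  have hpos : ∀ s : ℝ, 0 < ‖z + s • v‖ ^ 2 + δ := fun s => by positivity
  constructor
  · intro s
    exact ((hqd s).log (hpos s).ne').const_mul a
  · have hn : HasDerivAt (fun s : ℝ => 2 * (inner ℂ z v).re + 2 * ‖v‖ ^ 2 * s)
        (2 * ‖v‖ ^ 2) 0 := by
      have := ((hasDerivAt_id (0 : ℝ)).const_mul (2 * ‖v‖ ^ 2)).const_add (2 * (inner ℂ z v).re)
      simpa using this
    have h := ((hn.div (hqd 0) (hpos 0).ne').const_mul a)
    refine h.congr_deriv ?_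
    have hS : 0 < ‖z‖ ^ 2 + δ := by positivity
    simp only [zero_smul, add_zero, mul_zero]
    field_simp

lemma lev_le {f : Cn n → ℝ} {z : Cn n} {a δ : ℝ} (hδ : 0 < δ) (hf : ContDiffAt ℝ 2 f z)
    (hmax : IsLocalMax (fun w => f w - a * Real.log (‖w‖ ^ 2 + δ)) z) (v : Cn n) :
    lev f z v ≤ 4 * (a / (‖z‖ ^ 2 + δ) *
      (‖v‖ ^ 2 - (‖z‖ ^ 2 + δ)⁻¹ * ‖inner ℂ z v‖ ^ 2)) := by
  have key : ∀ v : Cn n, fderiv ℝ (fderiv ℝ f) z v v ≤
      a * ((2 * ‖v‖ ^ 2) / (‖z‖ ^ 2 + δ) -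
        (2 * (inner ℂ z v).re) ^ 2 / (‖z‖ ^ 2 + δ) ^ 2) := by
    intro v
    obtain ⟨h1, h2⟩ := line_deriv hf v
    obtain ⟨h3, h4⟩ := log_line a hδ z v
    have h5 : ∀ᶠ s in 𝓝 (0 : ℝ), HasDerivAt
        (fun s : ℝ => f (z + s • v) - a * Real.log (‖z + s • v‖ ^ 2 + δ))
        (fderiv ℝ f (z + s • v) v -
          a * ((2 * (inner ℂ z v).re + 2 * ‖v‖ ^ 2 * s) / (‖z + s • v‖ ^ 2 + δ))) s := by
      filter_upwards [h1] with s hs
      exact hs.sub (h3 s)
    have h6 := h2.sub h4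
    have h7 : IsLocalMax (fun s : ℝ => f (z + s • v) - a * Real.log (‖z + s • v‖ ^ 2 + δ)) 0 := by
      have h8 : Tendsto (fun s : ℝ => z + s • v) (𝓝 0) (𝓝 z) := by
        have : Continuous (fun s : ℝ => z + s • v) := by fun_prop
        simpa using this.tendsto 0
      have h9 := h8.eventually hmax
      unfold IsLocalMax IsMaxFilter
      simpa using h9
    have := second_nonpos h5 h6 h7
    linarith
  have e1 := key v
  have e2 := key (Complex.I • v)
  have hS : 0 < ‖z‖ ^ 2 + δ := by positivity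
  have e3 : inner ℂ z (Complex.I • v) = Complex.I * inner ℂ z v := inner_smul_right _ _ _
  have e4 : ‖Complex.I • v‖ = ‖v‖ := by rw [norm_smul]; simp
  have e5 : ‖inner ℂ z v‖ ^ 2 = (inner ℂ z v).re ^ 2 + (inner ℂ z v).im ^ 2 := by
    rw [← Complex.normSq_eq_norm_sq, Complex.normSq_apply]
    ring
  rw [e3, e4] at e2
  have e6 : (Complex.I * inner ℂ z v).re = -(inner ℂ z v).im := by simp
  rw [e6] at e2
  unfold lev
  rw [e5]
  have e7 : 4 * (a / (‖z‖ ^ 2 + δ) * (‖v‖ ^ 2 - (‖z‖ ^ 2 + δ)⁻¹ *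
      ((inner ℂ z v).re ^ 2 + (inner ℂ z v).im ^ 2))) =
      a * ((2 * ‖v‖ ^ 2) / (‖z‖ ^ 2 + δ) - (2 * (inner ℂ z v).re) ^ 2 / (‖z‖ ^ 2 + δ) ^ 2) +
      a * ((2 * ‖v‖ ^ 2) / (‖z‖ ^ 2 + δ) - (2 * -(inner ℂ z v).im) ^ 2 / (‖z‖ ^ 2 + δ) ^ 2) := by
    field_simp
    ring
  rw [e7]
  linarith

/-- The comparison of determinants at a local maximum of the difference. -/
lemma det_le {f : Cn n → ℝ} {z : Cn n} {a δ : ℝ} (hδ : 0 < δ) (hf : ContDiffAt ℝ 2 f z)
    (hpos : (complexHessian f z).PosDef)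
    (hmax : IsLocalMax (fun w => f w - a * Real.log (‖w‖ ^ 2 + δ)) z) :
    0 < (complexHessian f z).det.re ∧
      (complexHessian f z).det.re ≤ a ^ n * δ / (‖z‖ ^ 2 + δ) ^ (n + 1) := by
  have hpsd : (cmp a (‖z‖ ^ 2 + δ) z - complexHessian f z).PosSemidef := by
    have hherm : (cmp a (‖z‖ ^ 2 + δ) z - complexHessian f z).IsHermitian :=
      (cmp_herm _ _ _).sub hpos.isHermitian
    apply Matrix.PosSemidef.of_dotProduct_mulVec_nonneg hherm
    intro x
    rw [Complex.le_def]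
    constructor
    · rw [Matrix.sub_mulVec, dotProduct_sub, Complex.sub_re, cmp_quad, quad]
      have := lev_le hδ hf hmax (WithLp.toLp 2 (star x))
      simp only [Complex.zero_re]
      linarith
    · have := hherm.im_star_dotProduct_mulVec_self x
      simpa using this.symm
  have h := det_mono hpos hpsd
  rw [cmp_det a δ hδ z, Complex.ofReal_re] at h
  exact h

/-- Four times the Levi form is positive when the complex Hessian is positive definite. -/
lemma lev_pos {f : Cn n → ℝ} {z : Cn n} (hpos : (complexHessian f z).PosDef) {v : Cn n}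
    (hv : v ≠ 0) : 0 < lev f z v := by
  have hx : star (v.ofLp) ≠ 0 := by
    intro h
    apply hv
    have h2 : v.ofLp = 0 := by simpa using h
    ext i
    rw [h2]
    rfl
  have h1 := hpos.dotProduct_mulVec_pos hx
  rw [Complex.lt_def] at h1
  have h2 := h1.1
  rw [quad, star_star] at h2
  simp only [Complex.zero_re] at h2
  have h3 : (WithLp.toLp 2 v.ofLp : Cn n) = v := rfl
  rw [h3] at h2
  linarith

/-! ### A solution is nonpositive -/

section solution

variable {T c : ℝ} {u : Cn n → ℝ → ℝ}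

lemma sol_contDiffAt (hu : IsSolution (ball (0 : Cn n) 1) T (logPole c) (fun _ _ => 0) u)
    {t : ℝ} (ht : t ∈ Ioo 0 T) {z : Cn n} (hz : z ∈ ball (0 : Cn n) 1) :
    ContDiffAt ℝ ∞ (fun p : Cn n × ℝ => u p.1 p.2) (z, t) := by
  apply hu.smooth.contDiffAt
  apply prod_mem_nhds
  · exact mem_of_superset (isOpen_ball.mem_nhds hz) subset_closure
  · exact isOpen_Ioo.mem_nhds ht

lemma sol_space (hu : IsSolution (ball (0 : Cn n) 1) T (logPole c) (fun _ _ => 0) u)
    {t : ℝ} (ht : t ∈ Ioo 0 T) {z : Cn n} (hz : z ∈ ball (0 : Cn n) 1) :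
    ContDiffAt ℝ 2 (fun w => u w t) z := by
  have h1 := (sol_contDiffAt hu ht hz).of_le (m := 2) (WithTop.coe_le_coe.2 (le_top : (2 : ℕ∞) ≤ ⊤))
  have h2 : ContDiffAt ℝ 2 (fun w : Cn n => (w, t)) z := by fun_prop
  exact h1.comp z h2

lemma sol_time (hu : IsSolution (ball (0 : Cn n) 1) T (logPole c) (fun _ _ => 0) u)
    {t : ℝ} (ht : t ∈ Ioo 0 T) {z : Cn n} (hz : z ∈ ball (0 : Cn n) 1) :
    DifferentiableAt ℝ (fun s => u z s) t := by
  have h1 := (sol_contDiffAt hu ht hz).of_le (m := 2) (WithTop.coe_le_coe.2 (le_top : (2 : ℕ∞) ≤ ⊤))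
  have h2 : ContDiffAt ℝ 2 (fun s : ℝ => ((z, s) : Cn n × ℝ)) t := by fun_prop
  exact (h1.comp t h2).differentiableAt (by norm_num)

lemma sol_cont (hu : IsSolution (ball (0 : Cn n) 1) T (logPole c) (fun _ _ => 0) u) :
    ContinuousOn (fun p : Cn n × ℝ => u p.1 p.2) (closedBall (0 : Cn n) 1 ×ˢ Ioo 0 T) := by
  have := hu.smooth.continuousOn
  rwa [closure_ball _ one_ne_zero] at this

lemma sol_bdry (hu : IsSolution (ball (0 : Cn n) 1) T (logPole c) (fun _ _ => 0) u)
    {t : ℝ} (ht : t ∈ Ioo 0 T) {z : Cn n} (hz : ‖z‖ = 1) : u z t = 0 := by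
  apply hu.boundary z _ t ht
  rw [frontier_ball _ one_ne_zero]
  simpa using hz

lemma sol_nonpos (hn : 0 < n)
    (hu : IsSolution (ball (0 : Cn n) 1) T (logPole c) (fun _ _ => 0) u)
    {t : ℝ} (ht : t ∈ Ioo 0 T) {z : Cn n} (hz : z ∈ closedBall (0 : Cn n) 1) : u z t ≤ 0 := by
  have hc : ContinuousOn (fun w => u w t) (closedBall (0 : Cn n) 1) :=
    (sol_cont hu).comp (f := fun w : Cn n => (w, t)) (by fun_prop) fun w hw => ⟨hw, ht⟩
  obtain ⟨z₀, hz₀, hmax⟩ := (isCompact_closedBall (0 : Cn n) 1).exists_isMaxOn ⟨z, hz⟩ hc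
  have h1 : u z t ≤ u z₀ t := hmax hz
  rcases (mem_closedBall_zero_iff.mp hz₀).lt_or_eq with h | h
  · exfalso
    have hz0' : z₀ ∈ ball (0 : Cn n) 1 := by simpa using h
    have hloc : IsLocalMax (fun w => u w t) z₀ :=
      hmax.isLocalMax (mem_of_superset (isOpen_ball.mem_nhds hz0') ball_subset_closedBall)
    have hsp := sol_space hu ht hz0'
    have hle : ∀ v : Cn n, fderiv ℝ (fderiv ℝ (fun w => u w t)) z₀ v v ≤ 0 := by
      intro v
      obtain ⟨h1, h2⟩ := line_deriv hsp v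
      refine second_nonpos h1 h2 ?_
      have h8 : Tendsto (fun s : ℝ => z₀ + s • v) (𝓝 0) (𝓝 z₀) := by
        have : Continuous (fun s : ℝ => z₀ + s • v) := by fun_prop
        simpa using this.tendsto 0
      have h9 := h8.eventually hloc
      unfold IsLocalMax IsMaxFilter
      simpa using h9
    have hv : e (⟨0, hn⟩ : Fin n) ≠ 0 := by
      unfold e
      simp
    have := lev_pos (hu.strictlyPsh t ht z₀ hz0') hv
    unfold lev at this
    linarith [hle (e ⟨0, hn⟩), hle (Complex.I • e (⟨0, hn⟩ : Fin n))]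
  · rw [sol_bdry hu ht h] at h1
    exact h1

lemma measurePreserving_rot {w : ℂ} (hw : ‖w‖ = 1) :
    MeasurePreserving (fun x : Cn n => w • x) volume volume := by
  have hw0 : w ≠ 0 := by
    intro h
    simp [h] at hw
  let f : Cn n ≃ₗᵢ[ℝ] Cn n :=
    { toFun := fun x => w • x
      invFun := fun x => w⁻¹ • x
      map_add' := fun x y => smul_add _ _ _
      map_smul' := fun r x => smul_comm _ _ _
      left_inv := fun x => by simp [smul_smul, hw0]
      right_inv := fun x => by simp [smul_smul, hw0]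
      norm_map' := fun x => by
        change ‖w • x‖ = ‖x‖
        rw [norm_smul, hw, one_mul] }
  exact f.measurePreserving

/-- The barrier at time zero. -/
noncomputable def g₀ (c δ : ℝ) (y : Cn n) : ℝ := c / 2 * Real.log (‖y‖ ^ 2 + δ)

lemma g₀_cont (c : ℝ) {δ : ℝ} (hδ : 0 < δ) : Continuous (g₀ (n := n) c δ) := by
  unfold g₀
  apply continuous_const.mul
  apply Continuous.log (by fun_prop)
  intro y
  positivity

/-- The positive part of `u - g₀`, extended by zero. -/
noncomputable def Hp (u : Cn n → ℝ → ℝ) (c δ t : ℝ) : Cn n → ℝ≥0∞ :=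
  (ball (0 : Cn n) 1).indicator fun y => ENNReal.ofReal (u y t - g₀ c δ y)

lemma Hp_meas (hu : IsSolution (ball (0 : Cn n) 1) T (logPole c) (fun _ _ => 0) u)
    {t δ : ℝ} (hδ : 0 < δ) (ht : t ∈ Ioo 0 T) : Measurable (Hp u c δ t) := by
  classical
  unfold Hp
  rw [← Set.piecewise_eq_indicator]
  apply ContinuousOn.measurable_piecewise _ continuousOn_const measurableSet_ball
  have hc : ContinuousOn (fun w => u w t) (ball (0 : Cn n) 1) :=
    (sol_cont hu).comp (f := fun w : Cn n => (w, t)) (by fun_prop)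
      fun w hw => ⟨ball_subset_closedBall hw, ht⟩
  exact ENNReal.continuous_ofReal.comp_continuousOn (hc.sub (g₀_cont c hδ).continuousOn)

lemma vol_bound (hu : IsSolution (ball (0 : Cn n) 1) T (logPole c) (fun _ _ => 0) u)
    {t δ r G : ℝ} (hδ : 0 < δ) (ht : t ∈ Ioo 0 T) {z : Cn n}
    (hz : ‖z‖ + 2 * r < 1) (hG : ∀ y : Cn n, ‖y - z‖ ≤ r → g₀ c δ y ≤ G) :
    ENNReal.ofReal (u z t - G) * volume (ball (0 : Cn n) r) ≤ ∫⁻ y, Hp u c δ t y := by
  have hpi := Real.pi_pos
  have hHm := Hp_meas (δ := δ) hu hδ ht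
  have hsmooth : ContDiffOn ℝ 2 (fun w => u w t) (ball (0 : Cn n) 1) := fun w hw =>
    (sol_space hu ht hw).contDiffWithinAt
  have hlev : ∀ w ∈ ball (0 : Cn n) 1, ∀ v, 0 ≤ lev (fun w => u w t) w v := by
    intro w hw v
    by_cases hv : v = 0
    · subst hv
      simp [lev]
    · exact (lev_pos (hu.strictlyPsh t ht w hw) hv).le
  -- the inequality on one circle
  have circ : ∀ ξ ∈ ball (0 : Cn n) r, ENNReal.ofReal (u z t - G) ≤
      ENNReal.ofReal (2 * Real.pi)⁻¹ *
        ∫⁻ θ in Ioc 0 (2 * Real.pi), Hp u c δ t (z + circleMap 0 1 θ • ξ) := by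
    intro ξ hξ
    rw [mem_ball_zero_iff] at hξ
    have hin : ∀ l : ℂ, ‖l‖ < 2 → z + l • ξ ∈ ball (0 : Cn n) 1 := by
      intro l hl
      rw [mem_ball_zero_iff]
      calc ‖z + l • ξ‖ ≤ ‖z‖ + ‖l‖ * ‖ξ‖ := by
            rw [← norm_smul]; exact norm_add_le _ _
        _ ≤ ‖z‖ + 2 * r := by
            have : ‖l‖ * ‖ξ‖ ≤ 2 * r := mul_le_mul hl.le hξ.le (norm_nonneg _) (by norm_num)
            linarith
        _ < 1 := hz
    have hsub := sub_mean isOpen_ball hsmooth hlev hin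
    have hcirc : ∀ θ : ℝ, ‖circleMap 0 1 θ‖ = 1 := fun θ => by simp
    have hFc : Continuous (fun θ : ℝ => u (z + circleMap 0 1 θ • ξ) t) := by
      have h1 : Continuous (fun θ : ℝ => z + circleMap 0 1 θ • ξ) := by
        have := continuous_circleMap 0 1
        fun_prop
      rw [← continuousOn_univ]
      apply hsmooth.continuousOn.comp (f := fun θ : ℝ => z + circleMap 0 1 θ • ξ)
        h1.continuousOn
      intro θ _
      exact hin _ (by rw [hcirc]; norm_num)
    have h2 : u z t - G ≤ (2 * Real.pi)⁻¹ *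
        ∫ θ in Ioc 0 (2 * Real.pi), max (u (z + circleMap 0 1 θ • ξ) t - G) 0 := by
      have h3 : (2 * Real.pi)⁻¹ * ∫ θ in (0 : ℝ)..2 * Real.pi,
          (u (z + circleMap 0 1 θ • ξ) t - G) =
          Real.circleAverage (fun l : ℂ => u (z + l • ξ) t) 0 1 - G := by
        rw [intervalIntegral.integral_sub (hFc.intervalIntegrable _ _) (by simp)]
        unfold Real.circleAverage
        rw [intervalIntegral.integral_const, smul_eq_mul, smul_eq_mul, mul_sub]
        congr 1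
        field_simp
        ring
      calc u z t - G ≤ Real.circleAverage (fun l : ℂ => u (z + l • ξ) t) 0 1 - G := by linarith
        _ = (2 * Real.pi)⁻¹ * ∫ θ in (0 : ℝ)..2 * Real.pi,
            (u (z + circleMap 0 1 θ • ξ) t - G) := h3.symm
        _ ≤ _ := by
            apply mul_le_mul_of_nonneg_left _ (by positivity)
            rw [← intervalIntegral.integral_of_le (by positivity)]
            apply intervalIntegral.integral_mono (by positivity)
              ((hFc.sub continuous_const).intervalIntegrable _ _)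
              (((hFc.sub continuous_const).max continuous_const).intervalIntegrable _ _)
            intro θ
            exact le_max_left _ _
    calc ENNReal.ofReal (u z t - G) ≤ ENNReal.ofReal ((2 * Real.pi)⁻¹ *
          ∫ θ in Ioc 0 (2 * Real.pi), max (u (z + circleMap 0 1 θ • ξ) t - G) 0) :=
          ENNReal.ofReal_le_ofReal h2
      _ = ENNReal.ofReal (2 * Real.pi)⁻¹ * ∫⁻ θ in Ioc 0 (2 * Real.pi),
          ENNReal.ofReal (max (u (z + circleMap 0 1 θ • ξ) t - G) 0) := by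
          rw [ENNReal.ofReal_mul (by positivity), ofReal_integral_eq_lintegral_ofReal]
          · exact (((hFc.sub continuous_const).max continuous_const).integrableOn_Icc).mono_set
              Ioc_subset_Icc_self
          · exact Eventually.of_forall fun θ => le_max_right _ _
      _ ≤ _ := by
          gcongr with θ
          unfold Hp
          have hmem : z + circleMap 0 1 θ • ξ ∈ ball (0 : Cn n) 1 :=
            hin _ (by rw [hcirc]; norm_num)
          rw [indicator_of_mem hmem]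
          have hg := hG (z + circleMap 0 1 θ • ξ) (by
            rw [add_sub_cancel_left, norm_smul, hcirc, one_mul]
            exact hξ.le)
          rcases le_total (u (z + circleMap 0 1 θ • ξ) t - G) 0 with h | h
          · rw [max_eq_right h]
            simp
          · rw [max_eq_left h]
            apply ENNReal.ofReal_le_ofReal
            linarith
  have hjoint : Measurable (fun p : Cn n × ℝ => Hp u c δ t (z + circleMap 0 1 p.2 • p.1)) := by
    apply hHm.comp
    have := continuous_circleMap 0 1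
    fun_prop
  calc ENNReal.ofReal (u z t - G) * volume (ball (0 : Cn n) r)
      = ∫⁻ ξ in ball (0 : Cn n) r, ENNReal.ofReal (u z t - G) := by
        rw [setLIntegral_const]
    _ ≤ ∫⁻ ξ in ball (0 : Cn n) r, ENNReal.ofReal (2 * Real.pi)⁻¹ *
        ∫⁻ θ in Ioc 0 (2 * Real.pi), Hp u c δ t (z + circleMap 0 1 θ • ξ) :=
        setLIntegral_mono' measurableSet_ball circ
    _ ≤ ∫⁻ ξ, ENNReal.ofReal (2 * Real.pi)⁻¹ *
        ∫⁻ θ in Ioc 0 (2 * Real.pi), Hp u c δ t (z + circleMap 0 1 θ • ξ) :=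
        setLIntegral_le_lintegral _ _
    _ = ENNReal.ofReal (2 * Real.pi)⁻¹ *
        ∫⁻ ξ, ∫⁻ θ in Ioc 0 (2 * Real.pi), Hp u c δ t (z + circleMap 0 1 θ • ξ) := by
        rw [lintegral_const_mul']
        exact ENNReal.ofReal_ne_top
    _ = ENNReal.ofReal (2 * Real.pi)⁻¹ *
        ∫⁻ θ in Ioc 0 (2 * Real.pi), ∫⁻ ξ, Hp u c δ t (z + circleMap 0 1 θ • ξ) := by
        rw [lintegral_lintegral_swap]
        exact hjoint.aemeasurable
    _ = ENNReal.ofReal (2 * Real.pi)⁻¹ *
        ∫⁻ θ in Ioc 0 (2 * Real.pi), ∫⁻ y, Hp u c δ t y := by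
        congr 1
        apply lintegral_congr
        intro θ
        have h1 := (measurePreserving_rot (n := n) (w := circleMap 0 1 θ) (by simp)).lintegral_comp
          (f := fun x => Hp u c δ t (z + x)) (hHm.comp (measurable_const_add z))
        rw [h1]
        exact lintegral_add_left_eq_self _ _
    _ = ∫⁻ y, Hp u c δ t y := by
        rw [setLIntegral_const, Real.volume_Ioc, sub_zero, mul_left_comm,
          ← ENNReal.ofReal_mul (by positivity), inv_mul_cancel₀ (by positivity)]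
        simp

lemma u₀_le {δ : ℝ} (hc : 0 < c) (hδ : 0 < δ) (y : Cn n) :
    logPole c y ≤ ((g₀ c δ y : ℝ) : EReal) := by
  unfold logPole g₀
  split_ifs with h
  · exact bot_le
  · have hy : 0 < ‖y‖ := norm_pos_iff.mpr h
    have : c * Real.log ‖y‖ ≤ c / 2 * Real.log (‖y‖ ^ 2 + δ) := by
      have h1 : Real.log (‖y‖ ^ 2) ≤ Real.log (‖y‖ ^ 2 + δ) :=
        Real.log_le_log (by positivity) (by linarith)
      rw [Real.log_pow] at h1
      push_cast at h1
      nlinarith
    exact_mod_cast this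

/-- The integral of the positive part tends to zero. -/
lemma int_tendsto (hn : 0 < n) (hT : 0 < T) (hc : 0 < c)
    (hu : IsSolution (ball (0 : Cn n) 1) T (logPole c) (fun _ _ => 0) u)
    {δ : ℝ} (hδ : 0 < δ) :
    Tendsto (fun t => ∫⁻ y, Hp u c δ t y) (𝓝[>] 0) (𝓝 0) := by
  have hT' : Ioo 0 T ∈ 𝓝[>] (0 : ℝ) := Ioo_mem_nhdsGT hT
  have h0 : (0 : ℝ≥0∞) = ∫⁻ _ : Cn n, 0 := by simp
  rw [h0]
  apply tendsto_lintegral_filter_of_dominated_convergence
    ((ball (0 : Cn n) 1).indicator fun y => ENNReal.ofReal (-(c / 2 * Real.log δ)))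
  · filter_upwards [hT'] with t ht
    exact Hp_meas hu hδ ht
  · filter_upwards [hT'] with t ht
    refine Eventually.of_forall fun y => ?_
    unfold Hp
    apply indicator_le_indicator'
    intro hy
    apply ENNReal.ofReal_le_ofReal
    have h1 := sol_nonpos hn hu ht (ball_subset_closedBall hy)
    have h2 : c / 2 * Real.log δ ≤ g₀ c δ y := by
      unfold g₀
      apply mul_le_mul_of_nonneg_left _ (by positivity)
      apply Real.log_le_log hδ
      nlinarith [sq_nonneg ‖y‖]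
    linarith
  · rw [lintegral_indicator measurableSet_ball, setLIntegral_const]
    exact (ENNReal.mul_lt_top ENNReal.ofReal_lt_top measure_ball_lt_top).ne
  · refine Eventually.of_forall fun y => ?_
    by_cases hy : y ∈ ball (0 : Cn n) 1
    · rw [ENNReal.tendsto_nhds_zero]
      intro ε hε
      obtain ⟨η, hη, hη'⟩ : ∃ η : ℝ, 0 < η ∧ ENNReal.ofReal η ≤ ε := by
        by_cases h : ε = ⊤
        · exact ⟨1, one_pos, by rw [h]; exact le_top⟩
        · exact ⟨ε.toReal, ENNReal.toReal_pos hε.ne' h, ENNReal.ofReal_toReal_le⟩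
      have hlim := hu.initial y (subset_closure hy)
      have hlt : logPole c y < ((g₀ c δ y + η : ℝ) : EReal) := by
        refine (u₀_le hc hδ y).trans_lt ?_
        exact_mod_cast (by linarith : g₀ c δ y < g₀ c δ y + η)
      filter_upwards [hlim.eventually (gt_mem_nhds hlt)] with t ht
      have ht' : u y t < g₀ c δ y + η := by exact_mod_cast ht
      unfold Hp
      rw [indicator_of_mem hy]
      refine le_trans (ENNReal.ofReal_le_ofReal ?_) hη'
      linarith
    · have : ∀ t, Hp u c δ t y = 0 := fun t => by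
        unfold Hp
        rw [indicator_of_notMem hy]
      simp_rw [this]
      exact tendsto_const_nhds

/-- The initial condition holds uniformly from above, with respect to the barrier. -/
lemma hartogs (hn : 0 < n) (hT : 0 < T) (hc : 0 < c)
    (hu : IsSolution (ball (0 : Cn n) 1) T (logPole c) (fun _ _ => 0) u)
    {δ ε : ℝ} (hδ : 0 < δ) (hδ1 : δ < 1) (hε : 0 < ε) :
    ∀ᶠ t in 𝓝[>] (0 : ℝ), ∀ z ∈ closedBall (0 : Cn n) 1, u z t ≤ g₀ c δ z + ε := by
  have hT' : Ioo 0 T ∈ 𝓝[>] (0 : ℝ) := Ioo_mem_nhdsGT hT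
  set r : ℝ := min (δ / 4) (ε * δ / (3 * c)) with hrdef
  have hr : 0 < r := lt_min (by positivity) (by positivity)
  have hr1 : r ≤ δ / 4 := min_le_left _ _
  have hr2 : r ≤ ε * δ / (3 * c) := min_le_right _ _
  have hvol : 0 < volume (ball (0 : Cn n) r) := measure_ball_pos _ _ hr
  have hpos : 0 < ENNReal.ofReal (ε / 2) * volume (ball (0 : Cn n) r) :=
    ENNReal.mul_pos (by simpa using hε) hvol.ne'
  have hlim := (int_tendsto hn hT hc hu hδ).eventually (gt_mem_nhds hpos)
  filter_upwards [hT', hlim] with t ht hint z hz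
  have hz1 : ‖z‖ ≤ 1 := by simpa using hz
  rcases lt_or_ge (‖z‖ + 2 * r) 1 with h | h
  · have hG : ∀ y : Cn n, ‖y - z‖ ≤ r → g₀ c δ y ≤ g₀ c δ z + ε / 2 := by
      intro y hy
      unfold g₀
      have hS : 0 < ‖z‖ ^ 2 + δ := by positivity
      have hy1 : ‖y‖ ≤ ‖z‖ + r := by
        have := norm_add_le z (y - z)
        rw [add_sub_cancel] at this
        linarith
      have h1 : ‖y‖ ^ 2 + δ ≤ (‖z‖ ^ 2 + δ) * (1 + 3 * r / δ) := by
        have h2 : ‖y‖ ^ 2 ≤ (‖z‖ + r) ^ 2 := by gcongr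
        have h3 : 3 * r ≤ (‖z‖ ^ 2 + δ) * (3 * r / δ) := by
          rw [mul_div_assoc', le_div_iff₀ hδ]
          nlinarith [sq_nonneg ‖z‖]
        nlinarith [norm_nonneg z]
      have h4 : Real.log (‖y‖ ^ 2 + δ) ≤ Real.log (‖z‖ ^ 2 + δ) + 3 * r / δ := by
        calc Real.log (‖y‖ ^ 2 + δ) ≤ Real.log ((‖z‖ ^ 2 + δ) * (1 + 3 * r / δ)) :=
              Real.log_le_log (by positivity) h1
          _ = Real.log (‖z‖ ^ 2 + δ) + Real.log (1 + 3 * r / δ) :=
              Real.log_mul hS.ne' (by positivity)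
          _ ≤ _ := by
              have := Real.log_le_sub_one_of_pos (x := 1 + 3 * r / δ) (by positivity)
              linarith
      have h5 : c / 2 * (3 * r / δ) ≤ ε / 2 := by
        have : r * (3 * c) ≤ ε * δ := by
          rwa [le_div_iff₀ (by positivity)] at hr2
        rw [div_mul_div_comm, div_le_div_iff₀ (by positivity) (by norm_num)]
        nlinarith
      nlinarith
    have hb := vol_bound hu hδ ht h hG
    have h6 := hb.trans_lt hint
    have h7 : ENNReal.ofReal (u z t - (g₀ c δ z + ε / 2)) < ENNReal.ofReal (ε / 2) := by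
      by_contra hcon
      push Not at hcon
      exact absurd h6 (not_lt.mpr (mul_le_mul_left hcon _))
    have h8 : u z t - (g₀ c δ z + ε / 2) < ε / 2 := by
      by_contra hcon
      push Not at hcon
      exact absurd h7 (not_lt.mpr (ENNReal.ofReal_le_ofReal hcon))
    linarith
  · have h1 := sol_nonpos hn hu ht hz
    have h2 : 0 ≤ g₀ c δ z := by
      unfold g₀
      apply mul_nonneg (by positivity)
      apply Real.log_nonneg
      nlinarith [norm_nonneg z]
    linarith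

/-- The comparison with the barrier. -/
lemma compare (hn : 0 < n) (hT : 0 < T) (hc : 0 < c)
    (hu : IsSolution (ball (0 : Cn n) 1) T (logPole c) (fun _ _ => 0) u)
    {δ t₁ ε κ : ℝ} (hδ : 0 < δ) (hδ1 : δ < 1) (hδn : (c / 2) ^ n * δ ≤ 1) (hε : 0 < ε)
    (hκ : 0 < κ) (ht₁ : 0 < t₁) (ht₁T : t₁ < T) (hta : (n + 1) * t₁ < c / 2) {z : Cn n}
    (hz : z ∈ closedBall (0 : Cn n) 1) :
    u z t₁ ≤ (c / 2 - (n + 1) * t₁) * Real.log (‖z‖ ^ 2 + δ) + ε + κ * t₁ := by
  by_contra hcon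
  push Not at hcon
  have hn1 : (0 : ℝ) < n + 1 := by positivity
  -- the starting time
  obtain ⟨s, hs, hsH⟩ : ∃ s : ℝ, (0 < s ∧ s < t₁ ∧ (n + 1) * s * Real.log 2 ≤ ε / 2) ∧
      ∀ z ∈ closedBall (0 : Cn n) 1, u z s ≤ g₀ c δ z + ε / 2 := by
    have h1 := hartogs hn hT hc hu hδ hδ1 (half_pos hε)
    have h2 : Ioo 0 (min t₁ (ε / 2 / ((n + 1) * Real.log 2))) ∈ 𝓝[>] (0 : ℝ) :=
      Ioo_mem_nhdsGT (lt_min ht₁ (by positivity))
    obtain ⟨s, hs1, hs2⟩ := (h1.and h2).exists
    refine ⟨s, ⟨hs2.1, hs2.2.trans_le (min_le_left _ _), ?_⟩, hs1⟩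
    have h3 := (hs2.2.trans_le (min_le_right _ _)).le
    rw [le_div_iff₀ (by positivity)] at h3
    linarith
  obtain ⟨hs0, hst, hs2⟩ := hs
  let D : Cn n × ℝ → ℝ := fun p =>
    u p.1 p.2 - (c / 2 - (n + 1) * p.2) * Real.log (‖p.1‖ ^ 2 + δ) - κ * p.2
  have hK : IsCompact (closedBall (0 : Cn n) 1 ×ˢ Icc s t₁) :=
    (isCompact_closedBall _ _).prod isCompact_Icc
  have hDc : ContinuousOn D (closedBall (0 : Cn n) 1 ×ˢ Icc s t₁) := by
    apply ContinuousOn.sub
    · apply ContinuousOn.sub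
      · exact (sol_cont hu).mono (prod_mono_right fun t ht =>
          ⟨hs0.trans_le ht.1, ht.2.trans_lt ht₁T⟩)
      · apply ContinuousOn.mul (by fun_prop)
        apply ContinuousOn.log (by fun_prop)
        intro p _
        positivity
    · fun_prop
  obtain ⟨⟨z₀, t₀⟩, ⟨hz₀, ht₀⟩, hmax⟩ := hK.exists_isMaxOn
    ⟨(z, t₁), ⟨hz, ⟨hst.le, le_rfl⟩⟩⟩ hDc
  have hgt : ε < D (z₀, t₀) := by
    have h1 : D (z, t₁) ≤ D (z₀, t₀) := hmax ⟨hz, ⟨hst.le, le_rfl⟩⟩
    have h2 : ε < D (z, t₁) := by simp only [D]; linarith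
    linarith
  have hz₀' : ‖z₀‖ ≤ 1 := by simpa using hz₀
  have ht₀0 : 0 < t₀ := hs0.trans_le ht₀.1
  have ht₀T : t₀ ∈ Ioo 0 T := ⟨ht₀0, ht₀.2.trans_lt ht₁T⟩
  have hat : 0 < c / 2 - (n + 1) * t₀ := by
    have : (n + 1) * t₀ ≤ (n + 1) * t₁ := mul_le_mul_of_nonneg_left ht₀.2 hn1.le
    linarith
  have hS : 0 < ‖z₀‖ ^ 2 + δ := by positivity
  have hS2 : ‖z₀‖ ^ 2 + δ ≤ 2 := by nlinarith [norm_nonneg z₀]
  -- not at the initial time
  have hts : s < t₀ := by
    rcases ht₀.1.lt_or_eq with h | h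
    · exact h
    · exfalso
      subst h
      have h1 := hsH z₀ hz₀
      simp only [D] at hgt
      unfold g₀ at h1
      have h2 : (n + 1) * s * Real.log (‖z₀‖ ^ 2 + δ) ≤ (n + 1) * s * Real.log 2 :=
        mul_le_mul_of_nonneg_left (Real.log_le_log hS hS2) (by positivity)
      have h3 : 0 < κ * s := by positivity
      nlinarith
  -- not at the boundary
  have hzin : ‖z₀‖ < 1 := by
    rcases hz₀'.lt_or_eq with h | h
    · exact h
    · exfalso
      have h1 := sol_bdry hu ht₀T h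
      simp only [D] at hgt
      rw [h1, h] at hgt
      have h2 : 0 ≤ Real.log (1 ^ 2 + δ) := Real.log_nonneg (by linarith)
      have h3 : 0 ≤ (c / 2 - (n + 1) * t₀) * Real.log (1 ^ 2 + δ) := mul_nonneg hat.le h2
      have h4 : 0 < κ * t₀ := by positivity
      linarith
  have hzb : z₀ ∈ ball (0 : Cn n) 1 := by simpa using hzin
  -- space maximum
  have hloc : IsLocalMax (fun w => u w t₀ -
      (c / 2 - (n + 1) * t₀) * Real.log (‖w‖ ^ 2 + δ)) z₀ := by
    filter_upwards [isOpen_ball.mem_nhds hzb] with w hw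
    have h1 : D (w, t₀) ≤ D (z₀, t₀) := hmax ⟨ball_subset_closedBall hw, ht₀⟩
    simp only [D] at h1
    linarith
  have hdet := det_le hδ (sol_space hu ht₀T hzb) (hu.strictlyPsh t₀ ht₀T z₀ hzb) hloc
  have hflow := hu.flow t₀ ht₀T z₀ hzb
  have hlog : Real.log (complexHessian (fun w => u w t₀) z₀).det.re ≤
      -((n + 1) * Real.log (‖z₀‖ ^ 2 + δ)) := by
    have h1 : (c / 2 - (n + 1) * t₀) ^ n * δ ≤ 1 := by
      refine le_trans ?_ hδn
      gcongr
      have : 0 ≤ (n + 1) * t₀ := by positivity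
      linarith
    have h2 : (complexHessian (fun w => u w t₀) z₀).det.re ≤
        ((‖z₀‖ ^ 2 + δ) ^ (n + 1))⁻¹ := by
      refine hdet.2.trans ?_
      rw [div_eq_mul_inv]
      exact mul_le_of_le_one_left (by positivity) h1
    calc _ ≤ Real.log ((‖z₀‖ ^ 2 + δ) ^ (n + 1))⁻¹ := Real.log_le_log hdet.1 h2
      _ = _ := by
        rw [Real.log_inv, Real.log_pow]
        push_cast
        ring
  -- time derivative
  have hder : HasDerivAt (fun t => D (z₀, t))
      (deriv (fun s => u z₀ s) t₀ + (n + 1) * Real.log (‖z₀‖ ^ 2 + δ) - κ) t₀ := by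
    have h1 := (sol_time hu ht₀T hzb).hasDerivAt
    have h2 : HasDerivAt (fun t : ℝ => (c / 2 - (n + 1) * t) * Real.log (‖z₀‖ ^ 2 + δ))
        (-((n + 1) * Real.log (‖z₀‖ ^ 2 + δ))) t₀ := by
      have h3 := (((hasDerivAt_id t₀).const_mul ((n : ℝ) + 1)).const_sub (c / 2)).mul_const
        (Real.log (‖z₀‖ ^ 2 + δ))
      refine h3.congr_deriv ?_
      ring
    have h4 := (hasDerivAt_id t₀).const_mul κ
    have h5 := (h1.sub h2).sub h4
    refine h5.congr_deriv ?_
    ring
  rw [hflow] at hder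
  have hneg : Real.log (complexHessian (fun w => u w t₀) z₀).det.re +
      (n + 1) * Real.log (‖z₀‖ ^ 2 + δ) - κ < 0 := by linarith
  have hslope := (hasDerivAt_iff_tendsto_slope.mp hder).eventually (gt_mem_nhds hneg)
  have hleft : ∀ᶠ t in 𝓝[<] t₀, slope (fun t => D (z₀, t)) t₀ t < 0 :=
    hslope.filter_mono (nhdsWithin_mono _ fun t (ht : t < t₀) => ht.ne)
  have hI : Ioo s t₀ ∈ 𝓝[<] t₀ := Ioo_mem_nhdsLT hts
  obtain ⟨t, ht1, ht2⟩ := (hleft.and hI).exists
  have h1 : D (z₀, t) ≤ D (z₀, t₀) := hmax ⟨hz₀, ⟨ht2.1.le, (ht2.2.trans_le ht₀.2).le⟩⟩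
  rw [slope_def_field] at ht1
  have h2 : 0 ≤ (D (z₀, t) - D (z₀, t₀)) / (t - t₀) :=
    div_nonneg_of_nonpos (by linarith) (by linarith [ht2.2])
  linarith

/-- There is no solution. -/
lemma no_solution (hn : 0 < n) (hT : 0 < T) (hc : 0 < c)
    (hu : IsSolution (ball (0 : Cn n) 1) T (logPole c) (fun _ _ => 0) u) : False := by
  have hn1 : (0 : ℝ) < n + 1 := by positivity
  set t₁ : ℝ := min (T / 2) (c / 2 / (2 * (n + 1))) with ht₁def
  have ht₁ : 0 < t₁ := lt_min (by positivity) (by positivity)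
  have ht₁T : t₁ < T := (min_le_left _ _).trans_lt (by linarith)
  have hta : (n + 1) * t₁ < c / 2 := by
    have h1 : t₁ ≤ c / 2 / (2 * (n + 1)) := min_le_right _ _
    rw [le_div_iff₀ (by positivity)] at h1
    nlinarith
  set a := c / 2 - (n + 1) * t₁ with ha
  have ha0 : 0 < a := by linarith
  have key : ∀ δ : ℝ, 0 < δ → δ < 1 → (c / 2) ^ n * δ ≤ 1 → u 0 t₁ ≤ a * Real.log δ := by
    intro δ hδ hδ1 hδn
    apply le_of_forall_pos_le_add
    intro ε hε
    have h1 := compare hn hT hc hu hδ hδ1 hδn (half_pos hε)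
      (div_pos (half_pos hε) ht₁) ht₁ ht₁T hta (z := 0) (by simp)
    rw [norm_zero] at h1
    have h2 : ε / 2 / t₁ * t₁ = ε / 2 := by field_simp
    rw [h2] at h1
    have h3 : (0 : ℝ) ^ 2 + δ = δ := by ring
    rw [h3, ← ha] at h1
    linarith
  have hlim : Tendsto (fun δ : ℝ => a * Real.log δ) (𝓝[>] 0) atBot :=
    Real.tendsto_log_nhdsGT_zero.const_mul_atBot ha0
  have h1 := hlim.eventually (eventually_lt_atBot (u 0 t₁))
  have h2 : Ioo 0 (min 1 (((c / 2) ^ n)⁻¹)) ∈ 𝓝[>] (0 : ℝ) :=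
    Ioo_mem_nhdsGT (lt_min one_pos (by positivity))
  obtain ⟨δ, hδ1, hδ2⟩ := (h1.and h2).exists
  have h3 := key δ hδ2.1 (hδ2.2.trans_le (min_le_left _ _)) (by
    have h4 := (hδ2.2.trans_le (min_le_right _ _)).le
    calc (c / 2) ^ n * δ ≤ (c / 2) ^ n * ((c / 2) ^ n)⁻¹ := by gcongr
      _ = 1 := mul_inv_cancel₀ (by positivity))
  linarith

end solution

/-! ### The initial datum is plurisubharmonic -/

lemma logPole_usc {c : ℝ} (hc : 0 < c) : UpperSemicontinuousOn (logPole (n := n) c) univ := by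
  rw [upperSemicontinuousOn_univ_iff]
  intro z y hy
  by_cases hz : z = 0
  · subst hz
    have hy' : (⊥ : EReal) < y := by
      simpa [logPole] using hy
    obtain ⟨r, -, hr⟩ := EReal.lt_iff_exists_real_btwn.mp hy'
    filter_upwards [ball_mem_nhds (0 : Cn n) (Real.exp_pos (r / c))] with w hw
    unfold logPole
    split_ifs with h
    · exact hy'
    · refine lt_trans ?_ hr
      have hw0 : 0 < ‖w‖ := norm_pos_iff.mpr h
      have hw1 : Real.log ‖w‖ < r / c := by
        rw [Real.log_lt_iff_lt_exp hw0]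
        simpa using hw
      have : c * Real.log ‖w‖ < r := by
        rw [lt_div_iff₀ hc] at hw1
        linarith
      exact_mod_cast this
  · have hcont : ContinuousAt (fun w : Cn n => ((c * Real.log ‖w‖ : ℝ) : EReal)) z := by
      apply continuous_coe_real_ereal.continuousAt.comp
      apply continuousAt_const.mul
      exact continuousAt_id.norm.log (norm_ne_zero_iff.mpr hz)
    have h1 : ((c * Real.log ‖z‖ : ℝ) : EReal) < y := by
      simpa [logPole, hz] using hy
    filter_upwards [hcont.eventually (gt_mem_nhds h1), isOpen_ne.mem_nhds hz] with w hw hw0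
    unfold logPole
    rw [if_neg hw0]
    exact hw

lemma logPole_mean {c : ℝ} (hc : 0 < c) (z v : Cn n) (g : ℂ → ℝ) (hg : Continuous g)
    (hle : ∀ l : ℂ, ‖l‖ = 1 → logPole c (z + l • v) ≤ ((g l : ℝ) : EReal)) :
    logPole c z ≤ ((Real.circleAverage g 0 1 : ℝ) : EReal) := by
  by_cases hz : z = 0
  · rw [logPole, if_pos hz]
    exact bot_le
  rw [logPole, if_neg hz]
  have hz0 : 0 < ‖z‖ := norm_pos_iff.mpr hz
  have hgi : CircleIntegrable g 0 1 := hg.continuousOn.circleIntegrable'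
  set b : ℂ := inner ℂ z v with hb
  have hinner : ∀ l : ℂ, inner ℂ z (z + l • v) = ((‖z‖ ^ 2 : ℝ) : ℂ) + l * b := by
    intro l
    rw [inner_add_right, inner_smul_right, inner_self_eq_norm_sq_to_K]
    push_cast
    rfl
  have hcs : ∀ l : ℂ, ‖((‖z‖ ^ 2 : ℝ) : ℂ) + l * b‖ ≤ ‖z‖ * ‖z + l • v‖ := by
    intro l
    rw [← hinner]
    exact norm_inner_le_norm _ _
  have hbound : ∀ l : ℂ, ‖l‖ = 1 → ((‖z‖ ^ 2 : ℝ) : ℂ) + l * b ≠ 0 →
      Real.log ‖((‖z‖ ^ 2 : ℝ) : ℂ) + l * b‖ ≤ Real.log ‖z‖ + g l / c := by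
    intro l hl h0
    have h1 := hcs l
    have h2 : 0 < ‖((‖z‖ ^ 2 : ℝ) : ℂ) + l * b‖ := norm_pos_iff.mpr h0
    have h3 : 0 < ‖z + l • v‖ := by
      by_contra hcon
      have : ‖z + l • v‖ = 0 := le_antisymm (not_lt.mp hcon) (norm_nonneg _)
      rw [this, mul_zero] at h1
      linarith
    have h4 := hle l hl
    rw [logPole, if_neg (norm_pos_iff.mp h3)] at h4
    have h5 : c * Real.log ‖z + l • v‖ ≤ g l := by exact_mod_cast h4
    calc Real.log ‖((‖z‖ ^ 2 : ℝ) : ℂ) + l * b‖ ≤ Real.log (‖z‖ * ‖z + l • v‖) :=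
          Real.log_le_log h2 h1
      _ = Real.log ‖z‖ + Real.log ‖z + l • v‖ := Real.log_mul hz0.ne' h3.ne'
      _ ≤ Real.log ‖z‖ + g l / c := by
          have : Real.log ‖z + l • v‖ ≤ g l / c := by
            rw [le_div_iff₀ hc]
            linarith
          linarith
  have hlogsq : Real.log (‖z‖ ^ 2) = 2 * Real.log ‖z‖ := by
    rw [Real.log_pow]
    push_cast
    ring
  suffices h : c * Real.log ‖z‖ ≤ Real.circleAverage g 0 1 by exact_mod_cast h
  have hav : Real.circleAverage (fun l => Real.log ‖z‖ + g l / c) 0 1 =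
      Real.log ‖z‖ + Real.circleAverage g 0 1 / c := by
    have h1 : (fun l => Real.log ‖z‖ + g l / c) = fun l => Real.log ‖z‖ + c⁻¹ • g l := by
      funext l
      rw [smul_eq_mul]
      ring
    rw [h1, Real.circleAverage_fun_add (f₁ := fun _ => Real.log ‖z‖) (f₂ := fun l => c⁻¹ • g l)
      (continuousOn_const.circleIntegrable')
      ((hg.const_smul c⁻¹).continuousOn.circleIntegrable'),
      Real.circleAverage_const, Real.circleAverage_fun_smul, smul_eq_mul]
    ring
  have hint2 : CircleIntegrable (fun l => Real.log ‖z‖ + g l / c) 0 1 :=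
    (Continuous.continuousOn (by fun_prop)).circleIntegrable'
  suffices h : 2 * Real.log ‖z‖ ≤ Real.log ‖z‖ + Real.circleAverage g 0 1 / c by
    have h2 : Real.log ‖z‖ ≤ Real.circleAverage g 0 1 / c := by linarith
    rw [le_div_iff₀ hc] at h2
    linarith
  rw [← hav]
  by_cases hb0 : b = 0
  · have h1 : ∀ l ∈ sphere (0 : ℂ) |1|, 2 * Real.log ‖z‖ ≤ Real.log ‖z‖ + g l / c := by
      intro l hl
      have hl1 : ‖l‖ = 1 := by simpa using hl
      have h2 := hbound l hl1 (by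
        rw [hb0, mul_zero, add_zero]
        exact_mod_cast (by positivity : ‖z‖ ^ 2 ≠ 0))
      rw [hb0, mul_zero, add_zero, Complex.norm_real, Real.norm_of_nonneg (by positivity),
        hlogsq] at h2
      exact h2
    calc 2 * Real.log ‖z‖ = Real.circleAverage (fun _ => 2 * Real.log ‖z‖) 0 1 := by
          rw [Real.circleAverage_const]
      _ ≤ _ := Real.circleAverage_mono (by fun_prop) hint2 h1
  · set a : ℂ := -(((‖z‖ ^ 2 : ℝ) : ℂ) / b) with ha
    have hfac : ∀ l : ℂ, ((‖z‖ ^ 2 : ℝ) : ℂ) + l * b = b * (l - a) := by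
      intro l
      rw [ha]
      field_simp
      ring
    have hbn : 0 < ‖b‖ := norm_pos_iff.mpr hb0
    let G : ℂ → ℝ := fun l => if l = a then Real.log ‖z‖ + g l / c else
      Real.log ‖b‖ + Real.log ‖l - a‖
    have hGeq : (fun l => Real.log ‖b‖ + Real.log ‖l - a‖) =ᶠ[codiscreteWithin
        (sphere (0 : ℂ) |1|)] G := by
      have : {l : ℂ | l ≠ a} ∈ codiscreteWithin (sphere (0 : ℂ) |1|) := by
        rw [mem_codiscreteWithin_iff_forall_mem_nhdsNE]
        intro x _
        refine mem_of_superset ?_ subset_union_left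
        by_cases hx : x = a
        · rw [hx]; exact self_mem_nhdsWithin
        · exact mem_nhdsWithin_of_mem_nhds (isOpen_ne.mem_nhds hx)
      filter_upwards [this] with l hl
      simp only [G]
      rw [if_neg hl]
    have hi1 : CircleIntegrable (fun l => Real.log ‖b‖ + Real.log ‖l - a‖) 0 1 :=
      (by fun_prop : CircleIntegrable (fun _ : ℂ => Real.log ‖b‖) 0 1).add
        (circleIntegrable_log_norm_sub_const 1)
    have hGi : CircleIntegrable G 0 1 := hi1.congr_codiscreteWithin hGeq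
    have hGle : ∀ l ∈ sphere (0 : ℂ) |1|, G l ≤ Real.log ‖z‖ + g l / c := by
      intro l hl
      have hl1 : ‖l‖ = 1 := by simpa using hl
      simp only [G]
      split_ifs with h
      · exact le_rfl
      · have h1 : l - a ≠ 0 := sub_ne_zero.mpr h
        have h2 := hbound l hl1 (by
          rw [hfac]
          exact mul_ne_zero hb0 h1)
        rw [hfac, norm_mul, Real.log_mul hbn.ne' (norm_ne_zero_iff.mpr h1)] at h2
        exact h2
    have h3 := Real.circleAverage_mono hGi hint2 hGle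
    rw [← Real.circleAverage_congr_codiscreteWithin hGeq one_ne_zero] at h3
    have h4 : Real.circleAverage (fun l => Real.log ‖b‖ + Real.log ‖l - a‖) 0 1 =
        Real.log ‖b‖ + Real.posLog ‖a‖ := by
      rw [Real.circleAverage_fun_add (by fun_prop) (circleIntegrable_log_norm_sub_const 1),
        Real.circleAverage_const]
      congr 1
      exact circleAverage_log_norm_sub_const_eq_posLog
    rw [h4] at h3
    have h5 : 2 * Real.log ‖z‖ ≤ Real.log ‖b‖ + Real.posLog ‖a‖ := by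
      have h6 : ‖a‖ = ‖z‖ ^ 2 / ‖b‖ := by
        rw [ha, norm_neg, norm_div, Complex.norm_real, Real.norm_of_nonneg (by positivity)]
      have h7 : Real.log ‖a‖ ≤ Real.posLog ‖a‖ := le_max_right _ _
      rw [h6, Real.log_div (by positivity) hbn.ne', hlogsq] at h7
      rw [h6]
      linarith
    linarith

lemma logPole_psh {c : ℝ} (hc : 0 < c) : Psh (univ : Set (Cn n)) (logPole c) := by
  refine ⟨fun z _ => ?_, logPole_usc hc, fun z v _ g hg hle => logPole_mean hc z v g hg hle⟩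
  unfold logPole
  split_ifs
  · exact bot_ne_top
  · exact EReal.coe_ne_top _

lemma logPole_data {c T : ℝ} (hc : 0 < c) :
    IsData (ball (0 : Cn n) 1) T (logPole c) (fun _ _ => 0) where
  psh := ⟨univ, isOpen_univ, subset_univ _, logPole_psh hc⟩
  smooth := contDiffOn_const
  compatible := by
    intro z hz t _
    have h1 : ‖z‖ = 1 := by
      have := frontier_ball_subset_sphere hz
      simpa using this
    have h2 : z ≠ 0 := by
      intro h
      simp [h] at h1
    rw [logPole, if_neg h2, h1]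
    simp

/-- On the unit ball of `ℂⁿ`, for every `n ≥ 1`, every `T > 0` and every `c > 0`, the
plurisubharmonic function `c log |z|` with the zero boundary data is admissible, and there is no
solution of the complex Monge-Ampère flow with these data. -/
theorem result (n : ℕ) (hn : 0 < n) (T c : ℝ) (hT : 0 < T) (hc : 0 < c) :
    IsData (ball (0 : Cn n) 1) T (logPole c) (fun _ _ => 0) ∧
      ¬ ∃ u : Cn n → ℝ → ℝ, IsSolution (ball (0 : Cn n) 1) T (logPole c) (fun _ _ => 0) u :=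
  ⟨logPole_data hc, fun ⟨_, hu⟩ => no_solution hn hT hc hu⟩

end Pool.Agent.Results.MP_8f0dee_an.NoSolutionLogPole
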